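import Mathlib
import Pool.Agent.H130R4.DADefs
import Pool.Agent.Y344.Dau.Main

/-!
# Projective tensor squares without the Daugavet property

A stronger form of the starting result `DaugavetTensorFails` (there are real Banach spaces `X`, `Y`
with the Daugavet property such that the projective tensor product of `X` and `Y` fails it).

For a real Banach space `B` let `Z(B)` be the `l_1`-sum of `X(B) = l_inf^5(B)` and of `Y(B)`, the
`l_inf`-sum of 32 copies of `l_inf^25(B) ⊕_1 B`; it is a finite sum of copies of `B`. By the starting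
result the projective tensor product of `X(B)` and `Y(B)` carries an operator `T` of rank one with
`‖T‖ = 1` and `‖I + T‖ <= 2 - 10^-8`. The projective tensor square of `Z(B)` is the `l_1`-sum of the
four projective tensor products of `X(B)` and `Y(B)` with `X(B)` and `Y(B)`, and such operators
are inherited by every space with an `L`-projection onto a space having them. So the tensor
square of one space with the Daugavet property can fail it, and one space `Z` can be found around
every Banach space `W`: use `B = C([0,1], W x R)`, which has the Daugavet property.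
-/

set_option autoImplicit false
set_option synthInstance.maxHeartbeats 400000

namespace Pool.Agent.Results.MP_2568bd_an.TensorSquares

open Pool.Agent.H130R4.DA

/-- The space `Z(B)`: the `l_1`-sum of `l_inf^5(B)` and of the `l_inf`-sum of `32` copies of
`l_inf^25(B) ⊕_1 B`. -/
def Zsum (B : Type) [NormedAddCommGroup B] : Type :=
  WithLp 1 ((Fin 5 → B) × ((Fin 5 → Bool) → WithLp 1 ((Fin 5 × Fin 5 → B) × B)))

noncomputable instance instZ (B : Type) [NormedAddCommGroup B] : NormedAddCommGroup (Zsum B) :=
  inferInstanceAs (NormedAddCommGroup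
    (WithLp 1 ((Fin 5 → B) × ((Fin 5 → Bool) → WithLp 1 ((Fin 5 × Fin 5 → B) × B)))))

noncomputable instance instZS (B : Type) [NormedAddCommGroup B] [NormedSpace ℝ B] :
    NormedSpace ℝ (Zsum B) :=
  inferInstanceAs (NormedSpace ℝ
    (WithLp 1 ((Fin 5 → B) × ((Fin 5 → Bool) → WithLp 1 ((Fin 5 × Fin 5 → B) × B)))))

/-- The Daugavet property fails with a fixed gap: some operator `T` of rank one and norm one
satisfies `‖v + T v‖ ≤ (2 - 10⁻⁸) ‖v‖` for all `v`. -/
def Gap (V : Type) [NormedAddCommGroup V] [NormedSpace ℝ V] : Prop :=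
  ∃ T : V →L[ℝ] V, RankOne T ∧ ‖T‖ = 1 ∧ ∀ v, ‖v + T v‖ ≤ (2 - 1 / 10 ^ 8) * ‖v‖

/-- The space has the Daugavet property, but its projective tensor square does not have it, with
the gap `10⁻⁸`. -/
def BadSquare (Z : Type) [NormedAddCommGroup Z] [NormedSpace ℝ Z] : Prop :=
  DaugavetProperty ℝ Z ∧ ¬ DaugavetProperty ℝ (ProjectiveTensorProduct ℝ Z Z) ∧
    Gap (ProjectiveTensorProduct ℝ Z Z)

/-- `W` is isometric to a subspace of `Z`, the range of a projection of norm at most one. -/
def OneComplemented (W Z : Type) [NormedAddCommGroup W] [NormedSpace ℝ W] [NormedAddCommGroup Z]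
    [NormedSpace ℝ Z] : Prop :=
  ∃ (ι : W →ₗᵢ[ℝ] Z) (P : Z →L[ℝ] W), (∀ w, P (ι w) = w) ∧ ∀ z, ‖P z‖ ≤ ‖z‖

theorem bad_square (B : Type) [NormedAddCommGroup B] [NormedSpace ℝ B] [CompleteSpace B]
    [Nontrivial B] (hB : DaugavetProperty ℝ B) : CompleteSpace (Zsum B) ∧ BadSquare (Zsum B) := by
  have hg := Pool.Agent.Y344.Dau.gap_square (B := B)
  refine ⟨?_, ?_, ?_, ?_⟩
  · exact inferInstanceAs (CompleteSpace
      (WithLp 1 ((Fin 5 → B) × ((Fin 5 → Bool) → WithLp 1 ((Fin 5 × Fin 5 → B) × B)))))
  · exact (Pool.Agent.Y344.Dau.dp_sum (Pool.Agent.Y344.Dau.dp_of_daugavet hB)).daugavet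
  · exact Pool.Agent.Y344.Dau.not_daugavet_of_gap hg
  · obtain ⟨T, h1, h2, h3⟩ := hg
    exact ⟨T, h1, h2, fun v => (ContinuousLinearMap.id ℝ _ + T).le_of_opNorm_le h3 v⟩

theorem one_complemented (W : Type) [NormedAddCommGroup W] [NormedSpace ℝ W] :
    OneComplemented W (Zsum C(unitInterval, W × ℝ)) := by
  -- the embedding of `W` as constant functions
  let κ : W →ₗᵢ[ℝ] C(unitInterval, W × ℝ) :=
    { toFun := fun w => ContinuousMap.const _ (w, 0)
      map_add' := fun a b => by
        ext s
        · rfl
        · show (0 : ℝ) = 0 + 0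
          rw [add_zero]
      map_smul' := fun c a => by
        ext s
        · rfl
        · show (0 : ℝ) = c • 0
          rw [smul_zero]
      norm_map' := fun w => by
        show ‖ContinuousMap.const unitInterval ((w, 0) : W × ℝ)‖ = ‖w‖
        have hw : ‖((w, 0) : W × ℝ)‖ = ‖w‖ := by
          rw [Prod.norm_mk, norm_zero]
          exact max_eq_left (norm_nonneg w)
        refine le_antisymm ?_ ?_
        · rw [ContinuousMap.norm_le _ (norm_nonneg _)]
          intro s
          exact hw.le
        · exact hw.ge.trans (ContinuousMap.norm_coe_le_norm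
            (ContinuousMap.const unitInterval ((w, 0) : W × ℝ)) 0) }
  let ev : C(unitInterval, W × ℝ) →L[ℝ] W :=
    LinearMap.mkContinuous
      { toFun := fun f => (f 0).1
        map_add' := fun _ _ => rfl
        map_smul' := fun _ _ => rfl } 1 (fun f => by
        rw [one_mul]
        exact (norm_fst_le (f 0)).trans (ContinuousMap.norm_coe_le_norm f 0))
  have hev : ‖ev‖ ≤ 1 := LinearMap.mkContinuous_norm_le _ zero_le_one _
  refine ⟨(Pool.Agent.Y344.Dau.diag C(unitInterval, W × ℝ)).comp κ,
    ev.comp (Pool.Agent.Y344.Dau.coo C(unitInterval, W × ℝ)), fun w => rfl, fun z => ?_⟩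
  have e1 : ‖ev (Pool.Agent.Y344.Dau.coo C(unitInterval, W × ℝ) z)‖ ≤
      1 * ‖Pool.Agent.Y344.Dau.coo C(unitInterval, W × ℝ) z‖ := ev.le_of_opNorm_le hev _
  have e2 : ‖Pool.Agent.Y344.Dau.coo C(unitInterval, W × ℝ) z‖ ≤ 1 * ‖z‖ :=
    (Pool.Agent.Y344.Dau.coo C(unitInterval, W × ℝ)).le_of_opNorm_le
      Pool.Agent.Y344.Dau.norm_coo_le z
  rw [one_mul] at e1 e2
  exact e1.trans e2

/-- **Projective tensor squares need not inherit the Daugavet property.**
(1) There is a real Banach space `Z` with the Daugavet property whose projective tensor square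
fails it (so the answer to the question is negative even for `X = Y`).
(2) For every real Banach space `B ≠ 0` with the Daugavet property, the finite sum `Z(B)` of copies
of `B` is a Banach space with the Daugavet property, and its projective tensor square fails it, with
the gap `10⁻⁸`.
(3) Every real Banach space `W` is isometric to a subspace, the range of a projection of norm at
most one, of such a space: a Banach space `Z` with the Daugavet property whose projective tensor
square fails it, with the same gap. -/
theorem result :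
    (∃ (Z : Type) (_ : NormedAddCommGroup Z) (_ : NormedSpace ℝ Z) (_ : CompleteSpace Z),
      DaugavetProperty ℝ Z ∧ ¬ DaugavetProperty ℝ (ProjectiveTensorProduct ℝ Z Z)) ∧
    (∀ (B : Type) [NormedAddCommGroup B] [NormedSpace ℝ B] [CompleteSpace B] [Nontrivial B],
      DaugavetProperty ℝ B → CompleteSpace (Zsum B) ∧ BadSquare (Zsum B)) ∧
    (∀ (W : Type) [NormedAddCommGroup W] [NormedSpace ℝ W] [CompleteSpace W],
      ∃ (Z : Type) (_ : NormedAddCommGroup Z) (_ : NormedSpace ℝ Z) (_ : CompleteSpace Z),
        OneComplemented W Z ∧ BadSquare Z) := by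
  have h3 : ∀ (W : Type) [NormedAddCommGroup W] [NormedSpace ℝ W] [CompleteSpace W],
      ∃ (Z : Type) (_ : NormedAddCommGroup Z) (_ : NormedSpace ℝ Z) (_ : CompleteSpace Z),
        OneComplemented W Z ∧ BadSquare Z := by
    intro W _ _ _
    have hB : DaugavetProperty ℝ C(unitInterval, W × ℝ) :=
      (Pool.Agent.Y344.Dau.dp_CW (W := W × ℝ)).daugavet
    obtain ⟨k1, k2⟩ := bad_square C(unitInterval, W × ℝ) hB
    exact ⟨Zsum C(unitInterval, W × ℝ), inferInstance, inferInstance, k1, one_complemented W, k2⟩
  refine ⟨?_, fun B _ _ _ _ hB => bad_square B hB, fun W _ _ _ => h3 W⟩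
  obtain ⟨Z, i1, i2, i3, -, k2, k4, -⟩ := h3 ℝ
  exact ⟨Z, i1, i2, i3, k2, k4⟩

end Pool.Agent.Results.MP_2568bd_an.TensorSquares
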